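import Pool.Agent.Results.MP_89a3f8_ag.TerminationOfFlips
import Pool.Agent.Run7.h530.FI.Zar

/-!
# Fujita-Zariski decompositions on toroidal covers of products of projective spaces and their images

Let `F i` be a form of degree `d i` in `n i + 1` variables whose zero set in the projective
`n i`-space is a smooth hypersurface, and let `K` be the function field of an abelian cover `Y` of the
product of the projective `n i`-spaces which is branched along the hypersurfaces `F i = 0` of the
factors: `K` is generated by the affine coordinates and by roots `z j`,
`z j ^ (m j) = ∏ i, (F i (x i) / x i 0 ^ (d i)) ^ (a j i)`. Equivalently, `Y` is a quotient of the product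
of the cyclic hypersurfaces `H i`, `w ^ (d i) = F i`, by a group of diagonal automorphisms. Let `X` be a
toroidal modification of `Y`, given by `fan` (the definitions are those of the starting result
`MP_89a3f8_ag.TerminationOfFlips`).

**The varieties `X_0`.** Let `X_0` be a normal projective variety with a generically finite morphism
`X → X_0`, for instance `X_0 = X` or the quotient of `X` by ANY finite group of automorphisms
(permutations of equal factors, automorphisms of the forms, ...). Its function field `K0` is a subfield
of `K` and `K / K0` is finite. On `X_0` there are `ℚ`-Cartier divisors `D 1, ..., D p`; `δ i P` is the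
coefficient of the pull back of `D i` at the prime divisor `P` over `X_0`. We assume that the pull back
of `D i` to the models of `K` is the sum of a toroidal divisor on `X` and of the divisor of a function
`g i`, that the `D i` are independent (if `∑ i, μ i * D i` and its negative are both linearly equivalent
to effective divisors then `μ = 0`), and that some combination `A` with the coefficients `μ0` is ample.

If all `n i ≥ 3` and `X_0` is `ℚ`-factorial, then the `D i` can be chosen as a basis of
`Pic(X_0) ⊗ ℚ`, since all divisors on `X` are toroidal up to linear equivalence and multiples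
(Lefschetz; this remark is not used and not proved here). Then a multiple of every `ℚ`-divisor on `X_0`,
in particular of `K_{X_0} + B` for all `ℚ`-divisors `B`, is linearly equivalent to an integral
combination of the `D i`.

**Theorem.** Every pseudo-effective combination `D = ∑ i, μ i * D i` has a Fujita-Zariski decomposition:
there are a number `k ≥ 1` and a finite set `S` of nonzero sections of `k * D` with the following
property. Let `g : W → X_0` be a resolution on which the ideal generated by `S` is invertible, let `k P`
be the base point free divisor on `W` which is generated by `S`, and `N = g^* D - P`. Then `N ≥ 0`, `P` is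
nef (even semiample), and `L ≤ f^* P` for every projective birational `f : W' → W` and every nef
`ℝ`-Cartier divisor `L` on `W'` with `L ≤ f^* g^* D`. So the answer to the question is yes for all
pairs `(X_0, B)` of this kind for which `K_{X_0} + B` is a rational combination of the `D i` up to
linear equivalence and multiples. Whether `K_{X_0} + B` is log canonical is not used; `X_0` may have
any Kodaira dimension, and `K_{X_0} + B` need not be big.

**Nef divisors.** A nef `ℝ`-Cartier divisor `L` on a projective model is given by the coefficients `q P`
of its pull backs at the prime divisors `P`. `IsNefDivisor` says: for some effective `A'` and all `ε > 0`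
there is a semiample `ℚ`-divisor between `L` and `L + ε * A'`. This holds for all nef `L`: on a resolution
let `A'` be a very ample effective divisor whose support contains the components of `L`, and change the
coefficients of the ample `ℝ`-divisor `L + ε / 2 * A'` a little.

**The proof.** The multigraded ring of the sections of the combinations of the toroidal divisors on `X`
is finitely generated (starting tree, `Q57.CX`). The ring of the sections of the combinations of the
`D i` on `X_0` is finitely generated too, since the former ring is integral over it (`fg_desc`). Let
`s b` be finitely many homogeneous generators, with the degrees `g b`. The real `t b ≥ 0` with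
`∑ b, t b * g b = μ` are the elements of a polyhedron with finitely many rational vertices (`solutions`),
and `S` consists of powers of the corresponding monomials in the `s b`. A nef divisor `L ≤ D` is the
limit of semiample divisors, which are contained in `D + (c / n) * A` up to `(1 / n)` times the divisor of
a fixed function (`poles_bounded`); so at the prime divisor `P` the coefficient of `L` is at most
`- ∑ b, t b * ord_P (s b)` for some `t` with `∑ b, t b * g b = μ + (c / n) * μ0`, up to `O(1 / n)`. These
`t` are bounded (Gordan's theorem), and a limit of them gives the inequality (`limit_sol`).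
-/

set_option autoImplicit false

open FF MvPolynomial Pool.Agent.W602.GT Run7.h530.FI
open Pool.Agent.Results.MP_89a3f8_ag.TerminationOfFlips (Smooth Admissible InCone IsFan affine
  coefficient)

namespace Pool.Agent.Results.MP_d0da95_ag.FujitaZariski

/-- **Fujita-Zariski decompositions.** Let `X_0` be the image under a generically finite morphism of
a toroidal modification `X` of an abelian cover of a product of projective spaces branched along smooth
hypersurfaces of the factors, and let the `D i` be independent `ℚ`-Cartier divisors on `X_0`, some
combination of which (with the coefficients `μ0`) is ample, whose pull backs to `X` are toroidal up to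
linear equivalence. Then every pseudo-effective combination of the `D i` with integral coefficients has
a Fujita-Zariski decomposition. -/
theorem result (r N R p : ℕ) (n d : Fin r → ℕ) (hr : 1 ≤ r) (hn : ∀ i, 1 ≤ n i)
    (hd : ∀ i, 1 ≤ d i) (hN : N = ∑ i, n i)
    (F : ∀ i, MvPolynomial (Fin (n i + 1)) ℂ) (hF : ∀ i, (F i).IsHomogeneous (d i))
    (hs : ∀ i, Smooth (F i)) (m : Fin R → ℕ) (hm : ∀ j, 1 ≤ m j) (a : Fin R → Fin r → ℕ)
    (hdiv : ∀ j i, m j ∣ a j i * d i)
    (K : Type) [Field K] [Algebra ℂ K] (x : ∀ i, Fin (n i + 1) → K) (hx0 : ∀ i, x i 0 ≠ 0)
    (hbas : IsTranscendenceBasis ℂ (affine x)) (z : Fin R → K)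
    (hz : ∀ j, z j ^ m j = ∏ i, (aeval (x i) (F i) / x i 0 ^ d i) ^ a j i)
    (hgen : IntermediateField.adjoin ℂ (Set.range (affine x) ∪ Set.range z) = ⊤)
    (fan : Finset (Finset (Fin r → ℕ))) (hfan : IsFan m a fan)
    (c : Fin p → (Fin r → ℕ) → ℚ) (hc0 : ∀ i, c i 0 = 0) (β : Fin p → Fin r → ℤ)
    (u : Finset (Fin r → ℕ) → Fin p → Fin r → ℚ)
    (hlin : ∀ σ ∈ fan, ∀ i v, Admissible m a v → InCone σ v → - c i v = ∑ k, u σ i k * v k)
    (K0 : Type) [Field K0] [Algebra ℂ K0] [Algebra K0 K] [IsScalarTower ℂ K0 K]
    [FiniteDimensional K0 K] (δ : Fin p → Place ℂ K0 → ℚ) (M : ℕ) (hM : 1 ≤ M)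
    (hint : ∀ i P, Divisorial N P → ∃ b : ℤ, (M : ℚ) * δ i P = b)
    (g : Fin p → K) (hg : ∀ i, g i ≠ 0)
    (hδ : ∀ (i : Fin p) (Q : Place ℂ K) (P : Place ℂ K0) (e : ℕ), Over Q P e → Divisorial N Q →
      (e : ℚ) * δ i P = coefficient F d x (c i) (β i) Q + Q.ord (g i))
    (hind : ∀ μ : Fin p → ℤ, IsEff N δ μ → IsEff N δ (-μ) → μ = 0)
    (μ0 : Fin p → ℤ) (hamp : IsAmpleDivisor N δ μ0) (μ : Fin p → ℤ) (hμ : IsPsef N δ μ0 μ) :
    ∃ (k : ℕ) (S : Finset K0ˣ) (hS : S.Nonempty), IsFujitaZariski N δ μ k S hS :=
  fujita_zariski (Run7.h530.FI.fg_desc hg (fun i Q P e h hQ => hδ i Q P e h hQ) hM hint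
    (Pool.Agent.Q57.CX.main_cox (N := N) hr hn hN hd hF hs hx0 hbas hm hdiv hz hgen
      (S := fan) ⟨hfan.adm, hfan.full, hfan.cover⟩ hc0 (u := u) hlin (β := β)
      (δ := fun i P => coefficient F d x (c i) (β i) P) (fun _ _ => rfl))) hind hamp hμ

end Pool.Agent.Results.MP_d0da95_ag.FujitaZariski
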